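import Pool.Agent.Run7.h676.NI.Iface

/-!
# Piece EIG of project NI: commuting operators have a common eigenvector
-/

set_option autoImplicit false

open Pool.Agent.Run7.h676.NI
open scoped commutatorElement

namespace Pool.Agent.Run7.h215.NI

theorem eig_aux {Γ k W : Type} [Group Γ] [Field k] [IsAlgClosed k] [AddCommGroup W] [Module k W]
    [FiniteDimensional k W] (ρ : Γ →* (W →ₗ[k] W)) (T : Set Γ) :
    ∀ (n : ℕ) (X : Submodule k W), Module.finrank k X ≤ n → X ≠ ⊥ →
    (∀ t ∈ T, ∀ u ∈ X, ρ t u ∈ X) → (∀ s ∈ T, ∀ t ∈ T, ∀ u ∈ X, ρ s (ρ t u) = ρ t (ρ s u)) →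
    ∃ u ∈ X, u ≠ 0 ∧ ∀ t ∈ T, ∃ c : k, ρ t u = c • u := by
  intro n
  induction n with
  | zero =>
    intro X hX hne
    exact absurd (Submodule.finrank_eq_zero.mp (Nat.le_zero.mp hX)) hne
  | succ n ih =>
    intro X hX hne hst hcom
    by_cases hall : ∀ t ∈ T, ∃ c : k, ∀ u ∈ X, ρ t u = c • u
    · obtain ⟨u, hu, hu0⟩ := Submodule.exists_mem_ne_zero_of_ne_bot hne
      exact ⟨u, hu, hu0, fun t ht => by obtain ⟨c, hc⟩ := hall t ht; exact ⟨c, hc u hu⟩⟩
    · push Not at hall
      obtain ⟨t, ht, hnc⟩ := hall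
      have hr : ∀ x ∈ X, ρ t x ∈ X := hst t ht
      haveI : Nontrivial X := (Submodule.nontrivial_iff_ne_bot).mpr hne
      obtain ⟨c, hc⟩ := Module.End.exists_eigenvalue ((ρ t).restrict hr)
      obtain ⟨v, hv⟩ := hc.exists_hasEigenvector
      let X' : Submodule k W := X ⊓ LinearMap.ker (ρ t - c • LinearMap.id)
      have hmem : ∀ u, u ∈ X' ↔ u ∈ X ∧ ρ t u = c • u := by
        intro u
        simp [X', Submodule.mem_inf, LinearMap.mem_ker, sub_eq_zero]
      have hne' : X' ≠ ⊥ := by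
        intro h
        have h1 : (v : W) ∈ X' := (hmem v).mpr ⟨v.2, by
          have h2 := congrArg Subtype.val hv.apply_eq_smul
          simpa using h2⟩
        rw [h] at h1
        exact hv.2 (Subtype.ext (by simpa using h1))
      have hlt : X' < X := by
        refine lt_of_le_of_ne inf_le_left ?_
        intro h
        obtain ⟨u, hu, hu'⟩ := hnc c
        exact hu' ((hmem u).mp (h ▸ hu)).2
      have hfr : Module.finrank k X' ≤ n := by
        have := Submodule.finrank_lt_finrank_of_lt hlt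
        omega
      obtain ⟨u, hu, hu0, hue⟩ := ih X' hfr hne' (by
        intro s hs u hu
        have hu1 := (hmem u).mp hu
        refine (hmem _).mpr ⟨hst s hs u hu1.1, ?_⟩
        rw [hcom t ht s hs u hu1.1, hu1.2, map_smul]) (by
        intro s hs t' ht' u hu
        exact hcom s hs t' ht' u ((hmem u).mp hu).1)
      exact ⟨u, ((hmem u).mp hu).1, hu0, hue⟩

theorem t_EIG : S_EIG := by
  intro Γ k W _ _ _ _ _ _ ρ T X hne hst hcom
  exact eig_aux ρ T _ X le_rfl hne hst hcom

end Pool.Agent.Run7.h215.NI
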