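import Pool.Agent.Run7.h676.NI.Iface

/-!
# Piece REPA of project NI: good pairs exist
-/

set_option autoImplicit false

open Pool.Agent.Run7.h676.NI
open scoped commutatorElement

namespace Pool.Agent.Run7.h215.NI

section aux

variable {Γ : Type} [Group Γ] {R : Subgroup Γ}

theorem comm_mem {x y : Γ} (hx : x ∈ R) (hy : y ∈ R) : ⁅x, y⁆ ∈ R := by
  rw [commutatorElement_def]
  exact R.mul_mem (R.mul_mem (R.mul_mem hx hy) (R.inv_mem hx)) (R.inv_mem hy)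

theorem comm_cent (h2 : Cl2 R) {x y z : Γ} (hx : x ∈ R) (hy : y ∈ R) (hz : z ∈ R) :
    ⁅x, y⁆ * z = z * ⁅x, y⁆ :=
  commutatorElement_eq_one_iff_mul_comm.mp (h2 x hx y hy z hz)

theorem comm_mul (h2 : Cl2 R) {x x' y : Γ} (hx : x ∈ R) (hx' : x' ∈ R) (hy : y ∈ R) :
    ⁅x * x', y⁆ = ⁅x', y⁆ * ⁅x, y⁆ := by
  have h := comm_cent h2 hx' hy (R.inv_mem hx)
  have e : ⁅x * x', y⁆ = x * (⁅x', y⁆ * x⁻¹) * ⁅x, y⁆ * 1 := by
    simp only [commutatorElement_def]; group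
  rw [e, h]
  group

theorem comm_inv (h2 : Cl2 R) {x y : Γ} (hx : x ∈ R) (hy : y ∈ R) :
    ⁅x⁻¹, y⁆ = ⁅x, y⁆⁻¹ := by
  have h : ⁅x⁻¹ * x, y⁆ = ⁅x, y⁆ * ⁅x⁻¹, y⁆ := comm_mul h2 (R.inv_mem hx) hx hy
  have e : ⁅x⁻¹ * x, y⁆ = 1 := by
    rw [inv_mul_cancel]; simp
  rw [e] at h
  exact (eq_inv_of_mul_eq_one_right h.symm)

end aux

theorem t_REPA (hE : S_EIG) : S_REPA := by
  intro Γ k W _ _ _ _ _ _ _ _ ρ R hRn h2
  have hmul : ∀ (a b : Γ) (u : W), ρ (a * b) u = ρ a (ρ b u) := by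
    intro a b u
    rw [map_mul]; rfl
  have hone : ∀ u : W, ρ 1 u = u := by
    intro u
    rw [map_one]; rfl
  -- the set Z
  have hZ : ∃ w₀ ∈ (⊤ : Submodule k W), w₀ ≠ 0 ∧
      ∀ z ∈ {z : Γ | z ∈ R ∧ ∀ y ∈ R, z * y = y * z}, ∃ c : k, ρ z w₀ = c • w₀ := by
    apply hE Γ k W ρ _ ⊤ (by exact top_ne_bot)
    · intro t _ u _
      exact Submodule.mem_top
    · intro s hs t ht u _
      rw [← hmul, ← hmul, hs.2 t ht.1]
  obtain ⟨w₀, -, hw₀, hwZ⟩ := hZ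
  have hcZ : ∀ x ∈ R, ∀ y ∈ R, ∃ c : k, ρ ⁅x, y⁆ w₀ = c • w₀ := by
    intro x hx y hy
    exact hwZ _ ⟨comm_mem hx hy, fun z hz => comm_cent h2 hx hy hz⟩
  -- X
  let X : Submodule k W :=
    { carrier := {u | ∀ z : Γ, z ∈ R → (∀ y ∈ R, z * y = y * z) → ∀ c : k, ρ z w₀ = c • w₀ →
        ρ z u = c • u}
      zero_mem' := by
        intro z _ _ c _
        simp
      add_mem' := by
        intro a b ha hb z hz hz' c hc
        rw [map_add, ha z hz hz' c hc, hb z hz hz' c hc, smul_add]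
      smul_mem' := by
        intro r a ha z hz hz' c hc
        rw [map_smul, ha z hz hz' c hc, smul_comm] }
  have hXmem : ∀ u, u ∈ X ↔ ∀ z : Γ, z ∈ R → (∀ y ∈ R, z * y = y * z) → ∀ c : k,
      ρ z w₀ = c • w₀ → ρ z u = c • u := fun u => Iff.rfl
  have hw₀X : w₀ ∈ X := (hXmem w₀).mpr fun z _ _ c hc => hc
  have hXne : X ≠ ⊥ := by
    intro h
    rw [h] at hw₀X
    exact hw₀ (by simpa using hw₀X)
  -- X is R-stable
  have hXst : ∀ x ∈ R, ∀ u ∈ X, ρ x u ∈ X := by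
    intro x hx u hu
    refine (hXmem _).mpr ?_
    intro z hz hz' c hc
    rw [← hmul, hz' x hx, hmul, (hXmem u).mp hu z hz hz' c hc, map_smul]
  -- commutators with R₀ act trivially on X
  have hfix : ∀ x ∈ R, ∀ y ∈ R, ρ ⁅x, y⁆ w₀ = w₀ → ∀ u ∈ X, ρ ⁅x, y⁆ u = u := by
    intro x hx y hy h u hu
    have := (hXmem u).mp hu ⁅x, y⁆ (comm_mem hx hy) (fun z hz => comm_cent h2 hx hy hz) 1
      (by rw [one_smul]; exact h)
    rw [this, one_smul]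
  obtain ⟨w, hwX, hw, hwR⟩ := hE Γ k W ρ {x : Γ | x ∈ R ∧ ∀ y ∈ R, ρ ⁅x, y⁆ w₀ = w₀} X hXne
    (by
      intro t ht u hu
      exact hXst t ht.1 u hu)
    (by
      intro s hs t ht u hu
      have e : s * t = ⁅s, t⁆ * (t * s) := by
        rw [commutatorElement_def]; group
      rw [← hmul, e, hmul, ← hmul t s]
      refine hfix s hs.1 t ht.1 (hs.2 t ht.1) _ ?_
      rw [hmul]
      exact hXst t ht.1 _ (hXst s hs.1 u hu))
  -- fixing w₀ and w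
  have hinvfix : ∀ (g : Γ) (u : W), ρ g u = u → ρ g⁻¹ u = u := by
    intro g u h
    have : ρ g⁻¹ (ρ g u) = u := by rw [← hmul, inv_mul_cancel, hone]
    rw [h] at this
    exact this
  let U : Subgroup Γ :=
    { carrier := {x | (x ∈ R ∧ ∀ y ∈ R, ρ ⁅x, y⁆ w₀ = w₀) ∧ ρ x w = w}
      one_mem' := by
        refine ⟨⟨R.one_mem, fun y _ => ?_⟩, hone w⟩
        rw [commutatorElement_one_left, hone]
      mul_mem' := by
        intro a b ha hb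
        refine ⟨⟨R.mul_mem ha.1.1 hb.1.1, fun y hy => ?_⟩, ?_⟩
        · rw [comm_mul h2 ha.1.1 hb.1.1 hy, hmul, ha.1.2 y hy, hb.1.2 y hy]
        · rw [hmul, hb.2, ha.2]
      inv_mem' := by
        intro a ha
        refine ⟨⟨R.inv_mem ha.1.1, fun y hy => ?_⟩, ?_⟩
        · rw [comm_inv h2 ha.1.1 hy]
          exact hinvfix _ _ (ha.1.2 y hy)
        · exact hinvfix _ _ ha.2 }
  have hU : ∀ x, x ∈ U ↔ (x ∈ R ∧ ∀ y ∈ R, ρ ⁅x, y⁆ w₀ = w₀) ∧ ρ x w = w := fun x => Iff.rfl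
  -- Rad R U is inside R₀
  have hRad : ∀ x ∈ Rad R U, x ∈ R ∧ ∀ y ∈ R, ρ ⁅x, y⁆ w₀ = w₀ := by
    intro x hx
    refine ⟨hx.1, fun y hy => ?_⟩
    have h1 : ρ ⁅x, y⁆ w = w := ((hU _).mp (hx.2 y hy)).2
    obtain ⟨c, hc⟩ := hcZ x hx.1 y hy
    have h3 := (hXmem w).mp hwX ⁅x, y⁆ (comm_mem hx.1 hy)
      (fun z hz => comm_cent h2 hx.1 hy hz) c hc
    rw [h1] at h3
    have h4 : (c - 1) • w = 0 := by
      rw [sub_smul, one_smul, ← h3, sub_self]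
    have h5 : c = 1 := by
      rcases smul_eq_zero.mp h4 with h | h
      · exact sub_eq_zero.mp h
      · exact absurd h hw
    rw [hc, h5, one_smul]
  refine ⟨U, w, ?_⟩
  refine ⟨⟨?_, ?_⟩, hw, ?_, ?_, ?_⟩
  · intro x hx
    exact ((hU x).mp hx).1.1
  · intro u hu y hy
    have hu' := (hU u).mp hu
    refine (hU _).mpr ⟨⟨comm_mem hu'.1.1 hy, fun z hz => ?_⟩, ?_⟩
    · rw [h2 u hu'.1.1 y hy z hz, hone]
    · exact hfix u hu'.1.1 y hy (hu'.1.2 y hy) w hwX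
  · intro u hu
    exact ((hU u).mp hu).2
  · intro x hx hxw
    exact (hU x).mpr ⟨hRad x hx, hxw⟩
  · intro x hx
    exact hwR x (hRad x hx)

end Pool.Agent.Run7.h215.NI
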