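import Pool.Agent.Run7.h215.NI.REPA

/-!
# Piece REPC1 of project NI: a `Q`-eigenvector of the same weight
-/

set_option autoImplicit false

open Pool.Agent.Run7.h676.NI
open scoped commutatorElement

namespace Pool.Agent.Run7.h215.NI

theorem t_REPC1 (hE : S_EIG) : S_REPC1 := by
  intro Γ k W _ _ _ _ _ _ _ ρ R U Q w hRn h2 hG hRQ hQR hQU
  have hmul : ∀ (a b : Γ) (u : W), ρ (a * b) u = ρ a (ρ b u) := by
    intro a b u
    rw [map_mul]; rfl
  have hURad : ∀ u ∈ U, u ∈ Rad R U := fun u hu => ⟨hG.nin.le hu, fun y hy => hG.nin.nor u hu y hy⟩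
  let X : Submodule k W :=
    { carrier := {u | ∀ x ∈ Rad R U, ∀ c : k, ρ x w = c • w → ρ x u = c • u}
      zero_mem' := by
        intro x _ c _
        simp
      add_mem' := by
        intro a b ha hb x hx c hc
        rw [map_add, ha x hx c hc, hb x hx c hc, smul_add]
      smul_mem' := by
        intro r a ha x hx c hc
        rw [map_smul, ha x hx c hc, smul_comm] }
  have hXmem : ∀ u, u ∈ X ↔ ∀ x ∈ Rad R U, ∀ c : k, ρ x w = c • w → ρ x u = c • u :=
    fun u => Iff.rfl
  have hwX : w ∈ X := (hXmem w).mpr fun x _ c hc => hc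
  have hXne : X ≠ ⊥ := by
    intro h
    rw [h] at hwX
    exact hG.ne (by simpa using hwX)
  have hfix : ∀ g ∈ U, ∀ u ∈ X, ρ g u = u := by
    intro g hg u hu
    have := (hXmem u).mp hu g (hURad g hg) 1 (by rw [one_smul]; exact hG.fixU g hg)
    rw [this, one_smul]
  have hXst : ∀ y ∈ Q, ∀ u ∈ X, ρ y u ∈ X := by
    intro y hy u hu
    refine (hXmem _).mpr ?_
    intro x hx c hc
    have e : x * y = y * (x * ⁅x⁻¹, y⁻¹⁆) := by
      rw [commutatorElement_def]; group
    have hm : ⁅x⁻¹, y⁻¹⁆ ∈ U := by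
      rw [comm_inv h2 hx.1 (R.inv_mem (hQR hy))]
      exact U.inv_mem (hx.2 _ (R.inv_mem (hQR hy)))
    rw [← hmul, e, hmul, hmul, hfix _ hm u hu, (hXmem u).mp hu x hx c hc, map_smul]
  obtain ⟨u, hu, hu0, hue⟩ := hE Γ k W ρ (Q : Set Γ) X hXne
    (by
      intro t ht u hu
      exact hXst t ht u hu)
    (by
      intro s hs t ht u hu
      have e : s * t = ⁅s, t⁆ * (t * s) := by
        rw [commutatorElement_def]; group
      rw [← hmul, e, hmul, ← hmul t s]
      refine hfix _ (hQU s hs t ht) _ ?_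
      rw [hmul]
      exact hXst t ht _ (hXst s hs u hu))
  exact ⟨u, hu0, (hXmem u).mp hu, fun y hy => hue y hy⟩

end Pool.Agent.Run7.h215.NI
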